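import Mathlib

namespace Pool.Agent.Results.MP_4402ee_co.Cut

/-- `D` is a dominating set of `H`. -/
def Dom {V : Type} (H : SimpleGraph V) (D : Finset V) : Prop :=
  ∀ x, x ∉ D → ∃ y ∈ D, H.Adj x y

/-- `D` is a minimum dominating set of `H`. -/
def GammaSet {V : Type} (H : SimpleGraph V) (D : Finset V) : Prop :=
  Dom H D ∧ ∀ D', Dom H D' → D.card ≤ D'.card

def HypoUD {V : Type} (G : SimpleGraph V) : Prop :=
  (∃ D₁ D₂, D₁ ≠ D₂ ∧ GammaSet G D₁ ∧ GammaSet G D₂) ∧
    ∀ v : V, ∃! D, GammaSet (G.induce ({v}ᶜ : Set V)) D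

def nb : List ℕ := [71821, 526, 791, 363, 404, 424, 712, 753, 316, 710, 269312, 404481, 185345,
  206848, 217088, 364544, 385025, 161792, 363520]

def N (a : Fin 19) : ℕ := nb.getD a 0

def G : SimpleGraph (Fin 19) where
  Adj a b := a ≠ b ∧ (N a).testBit b = true
  symm := ⟨by decide +kernel⟩
  loopless := ⟨fun a h => h.1 rfl⟩

instance : DecidableRel G.Adj := fun a b => inferInstanceAs (Decidable (a ≠ b ∧ _))

def dl : List (List (Fin 19)) := [[8, 9, 17, 18], [7, 8, 17, 18], [3, 7, 17, 18], [2, 7, 17, 18],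
  [3, 9, 17, 18], [2, 6, 17, 18], [2, 5, 17, 18], [2, 3, 17, 18], [1, 7, 17, 18], [3, 4, 17, 18],
  [8, 9, 16, 17], [8, 9, 12, 16], [8, 9, 11, 16], [8, 9, 12, 18], [8, 9, 11, 15], [8, 9, 11, 14],
  [8, 9, 11, 12], [8, 9, 10, 16], [8, 9, 12, 13]]

def Dl (v : Fin 19) : List (Fin 19) := dl.getD v []

def msk (l : List (Fin 19)) : ℕ := l.foldr (fun a s => N a ||| s) 0

def ok (l : List (Fin 19)) : Bool :=
  let m := msk l &&& 524287
  m != 524287 && (List.finRange 19).all fun v => (m ||| 2 ^ v.val) != 524287 || l == Dl v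

theorem chk : ((List.range 5).all fun k => (List.sublistsLen k (List.finRange 19)).all ok) = true := by
  decide +kernel

theorem hN : ∀ a x : Fin 19, (x = a ∨ G.Adj x a) → (N a).testBit x = true := by decide +kernel

theorem msk_bit (l : List (Fin 19)) (x : Fin 19) (h : ∃ a ∈ l, x = a ∨ G.Adj x a) :
    (msk l).testBit x = true := by
  induction l with
  | nil => simp at h
  | cons b t ih =>
    obtain ⟨a, ha, hx⟩ := h
    have e : msk (b :: t) = N b ||| msk t := rfl
    rw [e, Nat.testBit_or]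
    rcases List.mem_cons.1 ha with rfl | ha
    · simp [hN _ _ hx]
    · simp [ih ⟨a, ha, hx⟩]

theorem full (m : ℕ) (hm : m < 2 ^ 19) (h : ∀ x : Fin 19, m.testBit x = true) : m = 524287 := by
  apply Nat.eq_of_testBit_eq
  intro i
  have e : (524287 : ℕ) = 2 ^ 19 - 1 := by norm_num
  rw [e, Nat.testBit_two_pow_sub_one]
  by_cases hi : i < 19
  · simpa [hi] using h ⟨i, hi⟩
  · simp only [hi, decide_false]
    exact Nat.testBit_lt_two_pow (lt_of_lt_of_le hm (Nat.pow_le_pow_right (by norm_num) (by omega)))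

theorem okE (E : Finset (Fin 19)) (hE : E.card ≤ 4) :
    ∃ l : List (Fin 19), l.toFinset = E ∧ ok l = true := by
  refine ⟨(List.finRange 19).filter (· ∈ E), by ext x; simp, ?_⟩
  have h := chk
  rw [List.all_eq_true] at h
  have hl : ((List.finRange 19).filter (· ∈ E)).length = E.card := by
    rw [← List.toFinset_card_of_nodup ((List.nodup_finRange 19).filter _)]
    congr 1; ext x; simp
  have h2 := h E.card (List.mem_range.2 (by omega))
  rw [List.all_eq_true] at h2
  exact h2 _ (List.mem_sublistsLen.2 ⟨List.filter_sublist, hl⟩)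

theorem bit_and (l : List (Fin 19)) (x : Fin 19) (h : (msk l).testBit x = true) :
    (msk l &&& 524287).testBit x = true := by
  have e : (524287 : ℕ) = 2 ^ 19 - 1 := by norm_num
  rw [Nat.testBit_and, h, e, Nat.testBit_two_pow_sub_one]; simp

theorem and_lt (m : ℕ) : m &&& 524287 < 2 ^ 19 :=
  lt_of_le_of_lt Nat.and_le_right (by norm_num)

theorem nodom (E : Finset (Fin 19)) (hd : Dom G E) : 5 ≤ E.card := by
  by_contra hc
  obtain ⟨l, rfl, hl⟩ := okE E (by omega)
  simp only [ok, Bool.and_eq_true, bne_iff_ne] at hl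
  refine hl.1 (full _ (and_lt _) fun x => bit_and l x (msk_bit l x ?_))
  by_cases hx : x ∈ l.toFinset
  · exact ⟨x, by simpa using hx, Or.inl rfl⟩
  · obtain ⟨y, hy, ha⟩ := hd x hx
    exact ⟨y, by simpa using hy, Or.inr ha⟩

theorem uniq (v : Fin 19) (E : Finset (Fin 19)) (hE : E.card ≤ 4)
    (hd : ∀ x, x ≠ v → x ∉ E → ∃ y ∈ E, G.Adj x y) : E = (Dl v).toFinset := by
  obtain ⟨l, rfl, hl⟩ := okE E hE
  simp only [ok, Bool.and_eq_true, List.all_eq_true, Bool.or_eq_true, bne_iff_ne, beq_iff_eq] at hl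
  rcases hl.2 v (List.mem_finRange v) with h | h
  · exfalso
    refine h (full _ (Nat.or_lt_two_pow (and_lt _) (Nat.pow_lt_pow_right (by norm_num) v.2)) fun x => ?_)
    rw [Nat.testBit_or]
    by_cases hv : x = v
    · subst hv; simp [Nat.testBit_two_pow_self]
    · rw [bit_and l x (msk_bit l x ?_)]; · simp
      by_cases hx : x ∈ l.toFinset
      · exact ⟨x, by simpa using hx, Or.inl rfl⟩
      · obtain ⟨y, hy, ha⟩ := hd x hv hx
        exact ⟨y, by simpa using hy, Or.inr ha⟩
  · rw [h]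

theorem hD : ∀ v : Fin 19, (Dl v).toFinset.card = 4 ∧ v ∉ (Dl v).toFinset ∧
    ∀ x, x ≠ v → x ∉ (Dl v).toFinset → ∃ y ∈ (Dl v).toFinset, G.Adj x y := by decide +kernel

theorem key (v : Fin 19) (D : Finset ({v}ᶜ : Set (Fin 19))) (hc : D.card ≤ 4)
    (hd : Dom (G.induce ({v}ᶜ : Set (Fin 19))) D) :
    D.map (Function.Embedding.subtype _) = (Dl v).toFinset := by
  refine uniq v _ (by simpa using hc) fun x hx hn => ?_
  obtain ⟨y, hy, ha⟩ := hd ⟨x, hx⟩ (fun h => hn (Finset.mem_map.2 ⟨_, h, rfl⟩))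
  exact ⟨y.1, Finset.mem_map.2 ⟨_, hy, rfl⟩, ha⟩

theorem hypo : HypoUD G := by
  refine ⟨⟨{0, 2, 3, 11, 12}, {0, 2, 3, 11, 16}, by decide, ⟨?_, fun D' h => ?_⟩, ⟨?_, fun D' h => ?_⟩⟩,
    fun v => ?_⟩
  · unfold Dom; decide +kernel
  · exact le_trans (by decide) (nodom D' h)
  · unfold Dom; decide +kernel
  · exact le_trans (by decide) (nodom D' h)
  classical
  obtain ⟨h4, hv, hd⟩ := hD v
  let D0 : Finset ({v}ᶜ : Set (Fin 19)) := (Dl v).toFinset.subtype _
  have hm : D0.map (Function.Embedding.subtype _) = (Dl v).toFinset :=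
    Finset.subtype_map_of_mem fun x hx (e : x = v) => hv (e ▸ hx)
  have hc : D0.card = 4 := by rw [← h4, ← hm, Finset.card_map]
  have hd0 : Dom (G.induce ({v}ᶜ : Set (Fin 19))) D0 := by
    intro x hx
    obtain ⟨y, hy, ha⟩ := hd x.1 x.2 (fun h => hx (Finset.mem_subtype.2 h))
    exact ⟨⟨y, fun (e : y = v) => hv (e ▸ hy)⟩, Finset.mem_subtype.2 hy, ha⟩
  refine ⟨D0, ⟨hd0, fun D' h => ?_⟩, fun D hD' => ?_⟩
  · by_contra hlt
    have := congrArg Finset.card (key v D' (by omega) h)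
    rw [Finset.card_map] at this
    omega
  · have h1 := hD'.2 D0 hd0
    exact Finset.map_injective _ ((key v D (by omega) hD'.1).trans hm.symm)

theorem conn : G.Connected := by
  have h1 : ∀ x : Fin 19, x = 0 ∨ G.Adj 0 x ∨ ∃ y, G.Adj 0 y ∧ G.Adj y x := by decide +kernel
  have h2 : ∀ x, G.Reachable 0 x := fun x => by
    rcases h1 x with rfl | h | ⟨y, h, h'⟩
    · rfl
    · exact h.reachable
    · exact h.reachable.trans h'.reachable
  exact ⟨fun a b => (h2 a).symm.trans (h2 b)⟩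

theorem side : ∀ a b : Fin 19, a ≠ 0 → b ≠ 0 → G.Adj a b → a.val < 10 → b.val < 10 := by
  decide +kernel

theorem result : ∃ (n : ℕ) (G : SimpleGraph (Fin n)), HypoUD G ∧ ∃ v : Fin n,
    Nat.card G.ConnectedComponent <
      Nat.card (G.induce ({v}ᶜ : Set (Fin n))).ConnectedComponent := by
  refine ⟨19, G, hypo, 0, ?_⟩
  have := conn.preconnected.subsingleton_connectedComponent
  have h1 : Nat.card G.ConnectedComponent ≤ 1 := Finite.card_le_one_iff_subsingleton.2 this
  have hnt : Nontrivial (G.induce ({0}ᶜ : Set (Fin 19))).ConnectedComponent := by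
    refine ⟨(G.induce _).connectedComponentMk ⟨1, by decide⟩,
      (G.induce _).connectedComponentMk ⟨10, by decide⟩, fun h => ?_⟩
    have hr := SimpleGraph.ConnectedComponent.eq.1 h
    rw [SimpleGraph.reachable_iff_reflTransGen] at hr
    have : ∀ b : ({0}ᶜ : Set (Fin 19)),
        Relation.ReflTransGen (G.induce ({0}ᶜ : Set (Fin 19))).Adj ⟨1, by decide⟩ b → b.1.val < 10 := by
      intro b hb
      induction hb with
      | refl => decide
      | @tail b c _ ha ih => exact side b.1 c.1 b.2 c.2 ha ih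
    exact absurd (this _ hr) (by decide)
  have := Finite.one_lt_card (α := (G.induce ({0}ᶜ : Set (Fin 19))).ConnectedComponent)
  omega

end Pool.Agent.Results.MP_4402ee_co.Cut
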